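import Mathlib

/-!
# A strongly regular graph whose quantum chromatic number is below its chromatic number

The graph is the orthogonality graph of the 63 lines spanned by the roots of the root system
`E_7` (equivalently, the collinearity graph of the symplectic polar space `Sp(6,2)`), a strongly
regular graph with parameters `(63, 30, 13, 15)`. Octonion multiplication turns the root vectors
into a quantum 8-colouring in dimension 8, while independent sets have at most 7 vertices.
-/

namespace Pool.Agent.Results.MP_75a6b7_co.ESeven

/-- `QuantumColouring G c d`: the graph `G` has a quantum `c`-colouring in dimension `d`, that is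
a family of orthogonal projections `P v i` on `ℂ^d` (Hermitian idempotent `d × d` matrices),
indexed by the vertices `v` and the colours `i`, which sum to the identity for every vertex and
with `P v i * P w i = 0` for all adjacent `v`, `w` and all `i`. -/
def QuantumColouring {V : Type} (G : SimpleGraph V) (c d : ℕ) : Prop :=
  ∃ P : V → Fin c → Matrix (Fin d) (Fin d) ℂ,
    (∀ v i, (P v i).IsHermitian ∧ P v i * P v i = P v i) ∧
    (∀ v, ∑ i, P v i = 1) ∧
    ∀ v w, G.Adj v w → ∀ i, P v i * P w i = 0

/-- The quantum chromatic number: the least `c` for which there is a quantum `c`-colouring in some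
dimension `d ≥ 1`. -/
noncomputable def quantumChromaticNumber {V : Type} (G : SimpleGraph V) : ℕ :=
  sInf {c : ℕ | ∃ d : ℕ, 1 ≤ d ∧ QuantumColouring G c d}

/-- The encoded root vectors. -/
def code : ℕ := 332133496445384068642569686459241142966761203385571075956668121473050416214960534189225246970945302036402805747515072207871480029939041413052736053663345641235729287603161508556704574122572227888266282133862680484472426152261784996102516210555469126182201842485132756555064522721304957345835467049075203

/-- The encoded adjacency lists. -/
def rcode : ℕ := 1969181495299619575089460089855273530889724163538429726230854420331524557685544501774170552111104720921552537328662450752819890855654803695839531701884633723880330800789041297438602048961948517317725478412464666528600313906726036830696463090022033152671781984973343536610781353172766392451338910981862741788142517098183201017012613404170684744818483800170846531739143058176234467505806096255078084050092380473711159706917077270963167805513488848402937525621007938379126110537833241810306592410766670889987475401796377146328381019828747090763445092959807819710476998864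86164860299927832951949669461207577491145702608189323516268271701252801718364550590606561598821012263173682667592666702867876231569833981959986276365339686548026334244397358607896179576525500352990163525948286394893721461096973062236661421263933224921582855436167153196558551095838932181475581880891074829065177738199643840658612300701183684817655614375334525241655345918783799053462042834684389618657479027840213744700603722050608869693096301272274899588942036116815817013089232645587204798601779570008600351142980806029779754865552941392500872474234557335375261748005986109589583161379883134100197889058543480278939939250039269518131700162560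

/-- The encoded signs of octonion multiplication. -/
def scode : ℕ := 5559566064892351744

/-- Coordinate `j` of the `i`-th root. -/
def root (i : Fin 63) (j : Fin 8) : ℤ :=
  if code.testBit (16 * i.val + j.val) then
    (if code.testBit (16 * i.val + 8 + j.val) then -(if i.val < 28 then 2 else 1)
      else (if i.val < 28 then 2 else 1))
  else 0

/-- The dot product. -/
def dot (a b : Fin 8 → ℤ) : ℤ :=
  a 0 * b 0 + a 1 * b 1 + a 2 * b 2 + a 3 * b 3 + a 4 * b 4 + a 5 * b 5 + a 6 * b 6 + a 7 * b 7

/-- The adjacency row. -/
def rowm (i : Fin 63) : ℕ := (rcode >>> (64 * i.val)) % 2 ^ 64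

/-- Signs. -/
def sg (a i : Fin 8) : ℤ := if scode.testBit (8 * a.val + i.val) then -1 else 1

/-- The permutation of the coordinates. -/
def px (a i : Fin 8) : Fin 8 := ⟨(a.val ^^^ i.val) % 8, Nat.mod_lt _ (by norm_num)⟩

lemma adj_tab : ∀ i j : Fin 63, dot (root i) (root j) = 0 ↔ (rowm i).testBit j.val = true := by
  decide +kernel

lemma dot_cases : ∀ i j : Fin 63, i ≠ j →
    dot (root i) (root j) = 0 ∨ dot (root i) (root j) = 4 ∨ dot (root i) (root j) = -4 := by
  decide +kernel

lemma dot_self : ∀ i : Fin 63, dot (root i) (root i) = 8 := by
  decide +kernel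

lemma root_sum : ∀ i : Fin 63, dot (root i) (fun _ => 1) = 0 := by
  decide +kernel

/-- The orthogonality graph of the roots. -/
def gr : SimpleGraph (Fin 63) where
  Adj i j := dot (root i) (root j) = 0
  symm := by
    constructor
    intro i j h
    have : dot (root j) (root i) = dot (root i) (root j) := by
      unfold dot; ring
    rw [this]; exact h
  loopless := ⟨fun i h => by rw [dot_self] at h; norm_num at h⟩

instance : DecidableRel gr.Adj := fun i j => inferInstanceAs (Decidable (dot (root i) (root j) = 0))

/-- Number of ones among the first `n` bits. -/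
def popc (m : ℕ) : ℕ → ℕ
  | 0 => 0
  | n + 1 => popc m n + (if m.testBit n then 1 else 0)

lemma card_filter_testBit (m n : ℕ) :
    (Finset.univ.filter (fun k : Fin n => m.testBit k.val = true)).card = popc m n := by
  induction n with
  | zero => simp [popc]
  | succ n ih =>
    rw [popc, ← ih, Fin.univ_castSuccEmb, Finset.filter_cons]
    split_ifs with h1 h2 h2
    · rw [Finset.card_cons, Finset.filter_map, Finset.card_map]
      rfl
    · exact absurd h1 (by simpa using h2)
    · exact absurd h2 (by simpa using h1)
    · rw [Finset.filter_map, Finset.card_map]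
      rfl

lemma pop_row : ∀ i : Fin 63, popc (rowm i) 63 = 30 := by
  decide +kernel

lemma pop_common : ∀ i j : Fin 63, i ≠ j →
    popc (rowm i &&& rowm j) 63 = if (rowm i).testBit j.val then 13 else 15 := by
  decide +kernel

lemma gr_srg : gr.IsSRGWith 63 30 13 15 where
  card := by simp
  regular := by
    intro i
    rw [← SimpleGraph.card_neighborFinset_eq_degree, ← pop_row i, ← card_filter_testBit]
    congr 1
    ext j
    rw [SimpleGraph.mem_neighborFinset, Finset.mem_filter]
    simp only [Finset.mem_univ, true_and]
    exact adj_tab i j
  of_adj := by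
    intro i j hij
    have hne : i ≠ j := hij.ne
    have h1 := pop_common i j hne
    rw [if_pos ((adj_tab i j).1 hij)] at h1
    rw [← h1, ← card_filter_testBit, ← Set.toFinset_card]
    congr 1
    ext k
    rw [Set.mem_toFinset, SimpleGraph.mem_commonNeighbors, Finset.mem_filter,
      Nat.testBit_and, Bool.and_eq_true]
    simp only [Finset.mem_univ, true_and]
    exact and_congr (adj_tab i k) (adj_tab j k)
  of_not_adj := by
    intro i j hne hij
    have h1 := pop_common i j hne
    rw [if_neg (fun h => hij ((adj_tab i j).2 h))] at h1
    rw [← h1, ← card_filter_testBit, ← Set.toFinset_card]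
    congr 1
    ext k
    rw [Set.mem_toFinset, SimpleGraph.mem_commonNeighbors, Finset.mem_filter,
      Nat.testBit_and, Bool.and_eq_true]
    simp only [Finset.mem_univ, true_and]
    exact and_congr (adj_tab i k) (adj_tab j k)

/-- The vectors of the quantum colouring. -/
def wv (v : Fin 63) (a i : Fin 8) : ℤ := sg a i * root v (px a i)

lemma wv_orth : ∀ (v : Fin 63) (a b : Fin 8), dot (wv v a) (wv v b) = if a = b then 8 else 0 := by
  decide +kernel

lemma wv_span : ∀ (v : Fin 63) (i j : Fin 8),
    dot (fun a => wv v a i) (fun a => wv v a j) = if i = j then 8 else 0 := by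
  decide +kernel

lemma wv_adj (v w : Fin 63) (h : dot (root v) (root w) = 0) (a : Fin 8) :
    dot (wv v a) (wv w a) = 0 := by
  have h1 : ∀ (a : Fin 8) (f g : Fin 8 → ℤ),
      dot (fun i => sg a i * f (px a i)) (fun i => sg a i * g (px a i)) = dot f g := by
    intro a f g
    have hs : ∀ i, sg a i * sg a i = 1 := by
      intro i; unfold sg; split_ifs <;> norm_num
    have h2 : dot (fun i => sg a i * f (px a i)) (fun i => sg a i * g (px a i))
        = dot (fun i => f (px a i)) (fun i => g (px a i)) := by
      unfold dot
      have : ∀ i, sg a i * f (px a i) * (sg a i * g (px a i)) = f (px a i) * g (px a i) := by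
        intro i
        calc sg a i * f (px a i) * (sg a i * g (px a i))
            = (sg a i * sg a i) * (f (px a i) * g (px a i)) := by ring
          _ = _ := by rw [hs, one_mul]
      simp only [this]
    rw [h2]
    unfold dot
    fin_cases a <;> simp [px] <;> ring
  exact (h1 a (root v) (root w)).trans h

lemma dot_eq_sum (a b : Fin 8 → ℤ) : dot a b = ∑ i, a i * b i := by
  rw [Fin.sum_univ_eight]; rfl

open Matrix in
lemma gr_quantum : QuantumColouring gr 8 8 := by
  refine ⟨fun v a => Matrix.of fun i j => (((wv v a i * wv v a j : ℤ) : ℂ) / 8), ?_, ?_, ?_⟩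
  · intro v a
    constructor
    · ext i j
      simp only [Matrix.conjTranspose_apply, Matrix.of_apply]
      rw [mul_comm (wv v a j)]
      simp
    · ext i j
      rw [Matrix.mul_apply]
      simp only [Matrix.of_apply]
      have h := wv_orth v a a
      rw [if_pos rfl, dot_eq_sum] at h
      have h' : ∑ k, ((wv v a k : ℤ) : ℂ) * ((wv v a k : ℤ) : ℂ) = 8 := by
        have := congrArg (fun z : ℤ => (z : ℂ)) h
        push_cast at this
        exact this
      calc ∑ k, (((wv v a i * wv v a k : ℤ) : ℂ) / 8) * (((wv v a k * wv v a j : ℤ) : ℂ) / 8)
          = ∑ k, (((wv v a i : ℤ) : ℂ) * ((wv v a j : ℤ) : ℂ) / 64) *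
              (((wv v a k : ℤ) : ℂ) * ((wv v a k : ℤ) : ℂ)) := by
            apply Finset.sum_congr rfl
            intro k _
            push_cast
            ring
        _ = (((wv v a i : ℤ) : ℂ) * ((wv v a j : ℤ) : ℂ) / 64) * 8 := by
            rw [← Finset.mul_sum, h']
        _ = _ := by push_cast; ring
  · intro v
    ext i j
    rw [Matrix.sum_apply]
    simp only [Matrix.of_apply]
    have h := wv_span v i j
    rw [dot_eq_sum] at h
    rw [← Finset.sum_div, ← Int.cast_sum, h]
    by_cases hij : i = j
    · subst hij
      simp
    · simp [hij]
  · intro v w hvw a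
    ext i j
    rw [Matrix.mul_apply]
    simp only [Matrix.of_apply, Matrix.zero_apply]
    have h := wv_adj v w hvw a
    rw [dot_eq_sum] at h
    have h' : ∑ k, ((wv v a k : ℤ) : ℂ) * ((wv w a k : ℤ) : ℂ) = 0 := by
      have := congrArg (fun z : ℤ => (z : ℂ)) h
      push_cast at this
      exact this
    calc ∑ k, (((wv v a i * wv v a k : ℤ) : ℂ) / 8) * (((wv w a k * wv w a j : ℤ) : ℂ) / 8)
        = ∑ k, (((wv v a i : ℤ) : ℂ) * ((wv w a j : ℤ) : ℂ) / 64) *
            (((wv v a k : ℤ) : ℂ) * ((wv w a k : ℤ) : ℂ)) := by
          apply Finset.sum_congr rfl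
          intro k _
          push_cast
          ring
      _ = 0 := by rw [← Finset.mul_sum, h', mul_zero]

open Matrix in
/-- There are no eight pairwise non-adjacent vertices. -/
lemma no_indep (f : Fin 8 → Fin 63) (hf : Function.Injective f)
    (hind : ∀ i j, i ≠ j → ¬ gr.Adj (f i) (f j)) : False := by
  let B : Matrix (Fin 8) (Fin 8) ℤ := fun i j => root (f i) j
  let A : Matrix (Fin 8) (Fin 8) ℤ := fun i j => dot (root (f i)) (root (f j)) / 4
  have hB : B.det = 0 := by
    apply Matrix.exists_mulVec_eq_zero_iff.1
    refine ⟨fun _ => 1, ?_, ?_⟩
    · intro h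
      have := congrFun h 0
      simp at this
    · ext i
      have h := root_sum (f i)
      rw [dot_eq_sum] at h
      exact h
  have hBA : B * Bᵀ = (4 : ℤ) • A := by
    ext i j
    rw [Matrix.mul_apply, Matrix.smul_apply]
    have h1 : ∑ k, B i k * Bᵀ k j = dot (root (f i)) (root (f j)) := by
      rw [dot_eq_sum]; rfl
    rw [h1]
    show dot (root (f i)) (root (f j)) = 4 * (dot (root (f i)) (root (f j)) / 4)
    by_cases hij : i = j
    · subst hij
      rw [dot_self]; norm_num
    · rcases dot_cases (f i) (f j) (fun h => hij (hf h)) with h | h | h <;> rw [h] <;> norm_num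
  have hA : A.det = 0 := by
    have h1 := congrArg Matrix.det hBA
    rw [Matrix.det_mul, hB, zero_mul, Matrix.det_smul] at h1
    have h2 : (4 : ℤ) ^ Fintype.card (Fin 8) ≠ 0 := by positivity
    rcases mul_eq_zero.1 h1.symm with h | h
    · exact absurd h h2
    · exact h
  let N : Matrix (Fin 8) (Fin 8) (ZMod 2) := fun i j => if i = j then 0 else 1
  have hN : A.map (Int.castRingHom (ZMod 2)) = N := by
    ext i j
    show ((dot (root (f i)) (root (f j)) / 4 : ℤ) : ZMod 2) = if i = j then 0 else 1
    by_cases hij : i = j
    · subst hij
      rw [dot_self, if_pos rfl]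
      decide
    · rw [if_neg hij]
      rcases dot_cases (f i) (f j) (fun h => hij (hf h)) with h | h | h
      · exact absurd h (hind i j hij)
      · rw [h]; decide
      · rw [h]; decide
  have hNN : N * N = 1 := by decide +kernel
  have h1 : N.det = 0 := by
    rw [← hN, ← RingHom.mapMatrix_apply, ← RingHom.map_det, hA, map_zero]
  have h2 := congrArg Matrix.det hNN
  rw [Matrix.det_mul, h1, zero_mul, Matrix.det_one] at h2
  exact zero_ne_one h2

lemma not_colorable : ¬ gr.Colorable 8 := by
  rintro ⟨c⟩
  have h1 : ∃ y ∈ (Finset.univ : Finset (Fin 8)),
      7 < (Finset.univ.filter (fun x : Fin 63 => c x = y)).card := by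
    apply Finset.exists_lt_card_fiber_of_mul_lt_card_of_maps_to
    · intro a _; exact Finset.mem_univ _
    · simp
  obtain ⟨y, -, hy⟩ := h1
  obtain ⟨S, hS, hcard⟩ := Finset.exists_subset_card_eq (show 8 ≤ _ from hy)
  let e := S.equivFinOfCardEq hcard
  refine no_indep (fun i => (e.symm i : Fin 63)) ?_ ?_
  · intro i j h
    exact e.symm.injective (Subtype.ext h)
  · intro i j _ hadj
    have hi := hS (e.symm i).2
    have hj := hS (e.symm j).2
    rw [Finset.mem_filter] at hi hj
    exact c.valid hadj (hi.2.trans hj.2.symm)

/-- **There is a strongly regular graph with quantum chromatic number smaller than its chromatic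
number**: a strongly regular graph with parameters `(63, 30, 13, 15)` which has a quantum
8-colouring in dimension 8 and whose chromatic number is at least 9. -/
theorem result : ∃ (G : SimpleGraph (Fin 63)) (_ : DecidableRel G.Adj),
    G.IsSRGWith 63 30 13 15 ∧ QuantumColouring G 8 8 ∧ 9 ≤ G.chromaticNumber ∧
    (quantumChromaticNumber G : ℕ∞) < G.chromaticNumber := by
  have h9 : (9 : ℕ∞) ≤ gr.chromaticNumber := by
    by_contra hcon
    push Not at hcon
    have h8 : gr.chromaticNumber ≤ 8 := by
      have : gr.chromaticNumber < ((8 : ℕ) : ℕ∞) + 1 := by
        refine lt_of_lt_of_le hcon ?_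
        norm_num
      exact Order.lt_add_one_iff_of_not_isMax (by simp) |>.1 this
    have : gr.Colorable 8 := SimpleGraph.chromaticNumber_le_iff_colorable.1 h8
    exact not_colorable this
  refine ⟨gr, inferInstance, gr_srg, gr_quantum, h9, ?_⟩
  have hq : quantumChromaticNumber gr ≤ 8 := Nat.sInf_le ⟨8, by norm_num, gr_quantum⟩
  refine lt_of_lt_of_le ?_ h9
  exact_mod_cast (by omega : quantumChromaticNumber gr < 9)

end Pool.Agent.Results.MP_75a6b7_co.ESeven
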